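import Pool.Agent.H73.CBE.Stmts

/-!
Board cbe (MP_e1af46_an), row HDB, helper38: the derivative of `H` is Hölder continuous on the annulus.
-/

set_option autoImplicit false

open Set Filter Topology

namespace Pool.CBE

/-- the derivative of the square of the norm -/
noncomputable def hdb_T {n : ℕ} (z : E n) : E n →L[ℝ] ℝ :=
  (2 : ℝ) • (Complex.reCLM.comp ((innerSL ℂ z).restrictScalars ℝ))

theorem hdb_T_apply {n : ℕ} (z v : E n) : hdb_T z v = 2 * (inner ℂ z v : ℂ).re := by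
  simp [hdb_T]

theorem hdb_T_sub {n : ℕ} (z w : E n) : ‖hdb_T z - hdb_T w‖ ≤ 2 * ‖z - w‖ := by
  refine ContinuousLinearMap.opNorm_le_bound _ (by positivity) fun v => ?_
  rw [sub_apply, hdb_T_apply, hdb_T_apply, ← mul_sub, ← Complex.sub_re,
    ← inner_sub_left, Real.norm_eq_abs, abs_mul, abs_two]
  have h1 := Complex.abs_re_le_norm (inner ℂ (z - w) v)
  have h2 := norm_inner_le_norm (𝕜 := ℂ) (z - w) v
  nlinarith

theorem hdb_T_norm {n : ℕ} (z : E n) : ‖hdb_T z‖ ≤ 2 * ‖z‖ := by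
  refine ContinuousLinearMap.opNorm_le_bound _ (by positivity) fun v => ?_
  rw [hdb_T_apply, Real.norm_eq_abs, abs_mul, abs_two]
  have h1 := Complex.abs_re_le_norm (inner ℂ z v)
  have h2 := norm_inner_le_norm (𝕜 := ℂ) z v
  nlinarith

theorem hdb_hasN {n : ℕ} (z : E n) : HasFDerivAt (fun y : E n => ‖y‖ ^ 2) (hdb_T z) z := by
  rw [hasFDerivAt_iff_isLittleO_nhds_zero]
  have h : (fun h : E n => ‖z + h‖ ^ 2 - ‖z‖ ^ 2 - hdb_T z h) = fun h => ‖h‖ ^ 2 := by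
    funext h
    rw [hdb_T_apply, @norm_add_sq ℂ]
    simp only [RCLike.re_eq_complex_re]
    ring
  rw [h]
  exact Asymptotics.isLittleO_norm_pow_id one_lt_two

theorem hdb_der {n : ℕ} (f : E n → E n) (d : ℕ) (z : E n) (hS : DifferentiableAt ℝ (S f d) z) :
    fderiv ℝ (H f d) z =
      Real.exp (S f d z) • (hdb_T z + ‖z‖ ^ 2 • fderiv ℝ (S f d) z) := by
  have h1 := (hdb_hasN z).mul hS.hasFDerivAt.exp
  have h2 : HasFDerivAt (H f d)
      (‖z‖ ^ 2 • (Real.exp (S f d z) • fderiv ℝ (S f d) z) +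
        Real.exp (S f d z) • hdb_T z) z := h1
  rw [h2.fderiv, smul_add, add_comm, smul_comm (‖z‖ ^ 2)]

theorem hdb_exp (B x y : ℝ) (hx : x ≤ B) (hy : y ≤ B) :
    |Real.exp x - Real.exp y| ≤ Real.exp B * |x - y| := by
  have key : ∀ s t : ℝ, s ≤ t → t ≤ B → Real.exp t - Real.exp s ≤ Real.exp B * (t - s) := by
    intro s t hst ht
    have h1 := Real.add_one_le_exp (s - t)
    have h2 : Real.exp s = Real.exp t * Real.exp (s - t) := by
      rw [← Real.exp_add]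
      congr 1
      ring
    have h3 := Real.exp_pos t
    have h4 : Real.exp t * (s - t + 1) ≤ Real.exp s := by
      rw [h2]
      exact mul_le_mul_of_nonneg_left h1 h3.le
    have h5 : Real.exp t * (t - s) ≤ Real.exp B * (t - s) :=
      mul_le_mul_of_nonneg_right (Real.exp_le_exp.2 ht) (by linarith)
    nlinarith
  rcases le_total x y with h | h
  · rw [abs_sub_comm, abs_of_nonneg (sub_nonneg.2 (Real.exp_le_exp.2 h)), abs_sub_comm,
      abs_of_nonneg (sub_nonneg.2 h)]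
    exact key x y h hy
  · rw [abs_of_nonneg (sub_nonneg.2 (Real.exp_le_exp.2 h)), abs_of_nonneg (sub_nonneg.2 h)]
    exact key y x h hx

theorem hdb_pow (h a : ℝ) (h0 : 0 ≤ h) (h1 : h ≤ 5 / 2) (ha0 : 0 < a) (ha1 : a < 1) :
    h ≤ 5 / 2 * h ^ a := by
  rcases h0.eq_or_lt with rfl | h0
  · rw [Real.zero_rpow ha0.ne']
    simp
  rcases le_total h 1 with h2 | h2
  · have : h ≤ h ^ a := by
      calc h = h ^ (1 : ℝ) := (Real.rpow_one h).symm
        _ ≤ h ^ a := Real.rpow_le_rpow_of_exponent_ge h0 h2 ha1.le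
    linarith
  · have : 1 ≤ h ^ a := Real.one_le_rpow h2 ha0.le
    linarith

theorem hdb_S {n : ℕ} (f : E n → E n) (d : ℕ) (B L a : ℝ) (ha0 : 0 < a) (ha1 : a < 1)
    (hL : 0 < L) (hB : 0 < B)
    (hd : ∀ z : E n, 1 / 2 < ‖z‖ → DifferentiableAt ℝ (S f d) z ∧ ‖fderiv ℝ (S f d) z‖ ≤ L)
    (hb : ∀ z : E n, z ≠ 0 → |S f d z| ≤ B) (z z' : E n) (hz : ‖z‖ = 1) (hz' : z' ≠ 0) :
    |S f d z - S f d z'| ≤ (L + 8 * B) * ‖z - z'‖ ^ a := by
  have hp : 0 ≤ ‖z - z'‖ ^ a := by positivity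
  rcases lt_or_ge ‖z - z'‖ (1 / 4) with h | h
  · have hconv : Convex ℝ (Metric.ball z (1 / 4)) := convex_ball z _
    have hin : ∀ y ∈ Metric.ball z (1 / 4), 1 / 2 < ‖y‖ := by
      intro y hy
      rw [Metric.mem_ball, dist_eq_norm] at hy
      have := norm_sub_norm_le z y
      rw [norm_sub_rev] at this
      linarith
    have h1 := hconv.norm_image_sub_le_of_norm_fderiv_le (𝕜 := ℝ) (f := S f d) (C := L)
      (fun y hy => (hd y (hin y hy)).1) (fun y hy => (hd y (hin y hy)).2)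
      (x := z') (y := z) (by rw [Metric.mem_ball, dist_eq_norm, norm_sub_rev]; exact h)
      (Metric.mem_ball_self (by norm_num))
    have h2 : ‖z - z'‖ ≤ ‖z - z'‖ ^ a := by
      rcases (norm_nonneg (z - z')).eq_or_lt with h0 | h0
      · rw [← h0, Real.zero_rpow ha0.ne']
      · calc ‖z - z'‖ = ‖z - z'‖ ^ (1 : ℝ) := (Real.rpow_one _).symm
          _ ≤ ‖z - z'‖ ^ a := Real.rpow_le_rpow_of_exponent_ge h0 (by linarith) ha1.le
    rw [← Real.norm_eq_abs]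
    calc ‖S f d z - S f d z'‖ ≤ L * ‖z - z'‖ := h1
      _ ≤ L * ‖z - z'‖ ^ a := mul_le_mul_of_nonneg_left h2 hL.le
      _ ≤ (L + 8 * B) * ‖z - z'‖ ^ a := mul_le_mul_of_nonneg_right (by linarith) hp
  · have hz0 : z ≠ 0 := by
      intro h0
      rw [h0, norm_zero] at hz
      norm_num at hz
    have h1 : |S f d z - S f d z'| ≤ 2 * B := by
      have := abs_sub (S f d z) (S f d z')
      have h2 := hb z hz0
      have h3 := hb z' hz'
      linarith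
    have h4 : (1 / 4 : ℝ) ≤ ‖z - z'‖ ^ a := by
      have h5 : (1 / 4 : ℝ) ^ a ≤ ‖z - z'‖ ^ a := Real.rpow_le_rpow (by norm_num) h ha0.le
      have h6 : (1 / 4 : ℝ) ≤ (1 / 4 : ℝ) ^ a := by
        calc (1 / 4 : ℝ) = (1 / 4 : ℝ) ^ (1 : ℝ) := (Real.rpow_one _).symm
          _ ≤ (1 / 4 : ℝ) ^ a :=
            Real.rpow_le_rpow_of_exponent_ge (by norm_num) (by norm_num) ha1.le
      linarith
    nlinarith

theorem HDB_thm (hS : SDFStmt) (hH : SHLStmt) (hF : FEQStmt) (_hA : HDAStmt) : HDBStmt := by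
  intro n f d η C θ a h
  obtain ⟨L, hL, hL'⟩ := hH n f d η C θ a h
  obtain ⟨⟨B, hB, hB'⟩, -⟩ := hF n f d η C θ a h
  have hd : ∀ z : E n, 1 / 2 < ‖z‖ →
      DifferentiableAt ℝ (S f d) z ∧ ‖fderiv ℝ (S f d) z‖ ≤ L :=
    fun z hz => ⟨(hS n f d η C θ a h z hz).1, (hL' z z hz hz).1⟩
  have ha0 := h.ha0
  have ha1 := h.ha1
  have hK : 0 < Real.exp B := Real.exp_pos B
  have hne : ∀ z : E n, 1 / 2 < ‖z‖ → z ≠ 0 := by
    intro z hz h0
    rw [h0, norm_zero] at hz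
    linarith
  have hexp : ∀ z : E n, z ≠ 0 → Real.exp (S f d z) ≤ Real.exp B := fun z hz =>
    Real.exp_le_exp.2 ((le_abs_self _).trans (hB' z hz))
  have hG : ∀ z : E n, 1 / 2 < ‖z‖ → ‖z‖ < 3 / 2 →
      ‖hdb_T z + ‖z‖ ^ 2 • fderiv ℝ (S f d) z‖ ≤ 3 + 9 / 4 * L := by
    intro z h1 h2
    refine (norm_add_le _ _).trans ?_
    rw [norm_smul, Real.norm_eq_abs, abs_of_nonneg (sq_nonneg _)]
    have h3 := hdb_T_norm z
    have h4 := (hd z h1).2
    have h5 : ‖z‖ ^ 2 ≤ 9 / 4 := by nlinarith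
    have h6 : ‖z‖ ^ 2 * ‖fderiv ℝ (S f d) z‖ ≤ 9 / 4 * L :=
      mul_le_mul h5 h4 (norm_nonneg _) (by norm_num)
    linarith
  refine ⟨Real.exp B * (3 + 9 / 4 * L) + (Real.exp B * (L + 8 * B) * (3 + 9 / 4 * L) +
    Real.exp B * (5 + 25 / 4 * L + 9 / 4 * L)), by positivity, ?_⟩
  intro z z' hz h1 h2
  have hz1 : 1 / 2 < ‖z‖ := by rw [hz]; norm_num
  have hz2 : ‖z‖ < 3 / 2 := by rw [hz]; norm_num
  have hz'1 : 1 / 2 < ‖z'‖ := by linarith
  have hp : 0 ≤ ‖z - z'‖ ^ a := by positivity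
  constructor
  · rw [hdb_der f d z' (hd z' hz'1).1, norm_smul, Real.norm_eq_abs, Real.abs_exp]
    have h3 : Real.exp (S f d z') * ‖hdb_T z' + ‖z'‖ ^ 2 • fderiv ℝ (S f d) z'‖ ≤
        Real.exp B * (3 + 9 / 4 * L) :=
      mul_le_mul (hexp z' (hne z' hz'1)) (hG z' hz'1 h2) (norm_nonneg _) hK.le
    have h4 : 0 ≤ Real.exp B * (L + 8 * B) * (3 + 9 / 4 * L) +
      Real.exp B * (5 + 25 / 4 * L + 9 / 4 * L) := by positivity
    linarith
  · rw [hdb_der f d z' (hd z' hz'1).1, hdb_der f d z (hd z hz1).1]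
    have hh : ‖z - z'‖ ≤ 5 / 2 := by
      have := norm_sub_le z z'
      linarith
    have hh2 := hdb_pow ‖z - z'‖ a (norm_nonneg _) hh ha0 ha1
    have e1 : |Real.exp (S f d z) - Real.exp (S f d z')| ≤
        Real.exp B * ((L + 8 * B) * ‖z - z'‖ ^ a) := by
      refine (hdb_exp B _ _ ((le_abs_self _).trans (hB' z (hne z hz1)))
        ((le_abs_self _).trans (hB' z' (hne z' hz'1)))).trans ?_
      exact mul_le_mul_of_nonneg_left
        (hdb_S f d B L a ha0 ha1 hL hB hd hB' z z' hz (hne z' hz'1)) hK.le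
    have e2 : ‖(hdb_T z + ‖z‖ ^ 2 • fderiv ℝ (S f d) z) -
        (hdb_T z' + ‖z'‖ ^ 2 • fderiv ℝ (S f d) z')‖ ≤
        (5 + 25 / 4 * L + 9 / 4 * L) * ‖z - z'‖ ^ a := by
      have e3 : (hdb_T z + ‖z‖ ^ 2 • fderiv ℝ (S f d) z) -
          (hdb_T z' + ‖z'‖ ^ 2 • fderiv ℝ (S f d) z') =
          (hdb_T z - hdb_T z') + ((‖z‖ ^ 2 - ‖z'‖ ^ 2) • fderiv ℝ (S f d) z +
            ‖z'‖ ^ 2 • (fderiv ℝ (S f d) z - fderiv ℝ (S f d) z')) := by
        rw [sub_smul, smul_sub]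
        abel
      rw [e3]
      refine (norm_add_le _ _).trans ((add_le_add le_rfl (norm_add_le _ _)).trans ?_)
      rw [norm_smul, norm_smul, Real.norm_eq_abs, Real.norm_eq_abs,
        abs_of_nonneg (sq_nonneg ‖z'‖)]
      have f1 := hdb_T_sub z z'
      have f2 : |‖z‖ ^ 2 - ‖z'‖ ^ 2| ≤ 5 / 2 * ‖z - z'‖ := by
        have : ‖z‖ ^ 2 - ‖z'‖ ^ 2 = (‖z‖ - ‖z'‖) * (‖z‖ + ‖z'‖) := by ring
        rw [this, abs_mul, abs_of_nonneg (by positivity : (0 : ℝ) ≤ ‖z‖ + ‖z'‖)]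
        have g1 := abs_norm_sub_norm_le z z'
        have g2 : ‖z‖ + ‖z'‖ ≤ 5 / 2 := by linarith
        calc |‖z‖ - ‖z'‖| * (‖z‖ + ‖z'‖) ≤ ‖z - z'‖ * (5 / 2) :=
              mul_le_mul g1 g2 (by positivity) (norm_nonneg _)
          _ = 5 / 2 * ‖z - z'‖ := by ring
      have f3 := (hL' z z' hz1 hz'1).1
      have f4 := (hL' z z' hz1 hz'1).2
      have f5 : |‖z‖ ^ 2 - ‖z'‖ ^ 2| * ‖fderiv ℝ (S f d) z‖ ≤ 5 / 2 * ‖z - z'‖ * L :=
        mul_le_mul f2 f3 (norm_nonneg _) (by positivity)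
      have f6 : ‖z'‖ ^ 2 * ‖fderiv ℝ (S f d) z - fderiv ℝ (S f d) z'‖ ≤
          9 / 4 * (L * ‖z - z'‖ ^ a) :=
        mul_le_mul (by nlinarith) f4 (norm_nonneg _) (by norm_num)
      have f7 : 5 / 2 * ‖z - z'‖ * L ≤ 25 / 4 * L * ‖z - z'‖ ^ a := by
        have := mul_le_mul_of_nonneg_left hh2 (by positivity : (0 : ℝ) ≤ 5 / 2 * L)
        nlinarith
      nlinarith
    have e4 : ∀ (α β : ℝ) (X Y : E n →L[ℝ] ℝ),
        α • X - β • Y = (α - β) • X + β • (X - Y) := by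
      intro α β X Y
      module
    rw [e4]
    refine (norm_add_le _ _).trans ?_
    rw [norm_smul, norm_smul, Real.norm_eq_abs, Real.norm_eq_abs, Real.abs_exp]
    have g1 : |Real.exp (S f d z) - Real.exp (S f d z')| *
        ‖hdb_T z + ‖z‖ ^ 2 • fderiv ℝ (S f d) z‖ ≤
        Real.exp B * ((L + 8 * B) * ‖z - z'‖ ^ a) * (3 + 9 / 4 * L) :=
      mul_le_mul e1 (hG z hz1 hz2) (norm_nonneg _) (by positivity)
    have g2 : Real.exp (S f d z') * ‖(hdb_T z + ‖z‖ ^ 2 • fderiv ℝ (S f d) z) -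
        (hdb_T z' + ‖z'‖ ^ 2 • fderiv ℝ (S f d) z')‖ ≤
        Real.exp B * ((5 + 25 / 4 * L + 9 / 4 * L) * ‖z - z'‖ ^ a) :=
      mul_le_mul (hexp z' (hne z' hz'1)) e2 (norm_nonneg _) hK.le
    have g3 : 0 ≤ Real.exp B * (3 + 9 / 4 * L) * ‖z - z'‖ ^ a := by positivity
    nlinarith

end Pool.CBE
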